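import Pool.Agent.Lead.TB.Defs

/-!
# Project TB, module E: splitting a factorisation
-/

set_option autoImplicit false

namespace Pool.Agent.Lead.TB

open Finset

theorem h87_mem_fac {n : ℕ} {ι : Type} [Fintype ι] [DecidableEq ι] {G : Gr n}
    {σ : ι → Equiv.Perm (Fin n)} :
    σ ∈ fac ι G ↔ (∀ i r, σ i r ∈ G r) ∧ ∀ i j, i ≠ j → ∀ r, σ i r ≠ σ j r := by
  rw [fac, mem_filter]
  exact and_iff_right (mem_univ _)

theorem h87_split_half {n m : ℕ} {G K : Gr n} (hK : K ∈ half m G) {σ : Fin m → Equiv.Perm (Fin n)}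
    (hσ : σ ∈ fac (Fin m) K) (r : Fin n) : K r = univ.image fun i => σ i r := by
  have h1 := (mem_filter.1 hK).2.2.1 r
  have h2 := h87_mem_fac.1 hσ
  symm
  apply eq_of_subset_of_card_le
  · intro c hc
    obtain ⟨i, _, rfl⟩ := mem_image.1 hc
    exact h2.1 i r
  · rw [h1, card_image_of_injective, card_univ, Fintype.card_fin]
    intro i j hij
    by_contra hne
    exact h2.2 i j hne r hij

/-! TB-5 splitting a factorisation -/
theorem split {n m : ℕ} (G : Gr n) :
    ∑ K ∈ half m G, (fac (Fin m) K).card * (fac (Fin m) fun r => G r \ K r).card ≤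
      (fac (Fin (2 * m)) G).card := by
  classical
  have hsum : ∑ K ∈ half m G, (fac (Fin m) K).card * (fac (Fin m) fun r => G r \ K r).card =
      ((half m G).sigma fun K => fac (Fin m) K ×ˢ fac (Fin m) fun r => G r \ K r).card := by
    rw [card_sigma]
    exact sum_congr rfl fun K _ => (card_product _ _).symm
  rw [hsum]
  let e : Fin (2 * m) → Fin (m + m) := Fin.cast (two_mul m)
  have hes : Function.Surjective e := fun j => ⟨Fin.cast (two_mul m).symm j, by simp [e]⟩
  have hei : Function.Injective e := Fin.cast_injective _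
  refine card_le_card_of_injOn
    (fun x => fun i => Fin.append x.2.1 x.2.2 (e i)) ?_ ?_
  · rintro ⟨K, σ, τ⟩ hx
    obtain ⟨hK, hx⟩ := mem_sigma.1 hx
    obtain ⟨hσ, hτ⟩ := mem_product.1 hx
    simp only at hK hσ hτ
    have hKG := (mem_filter.1 hK).2.1
    obtain ⟨hσ1, hσ2⟩ := h87_mem_fac.1 hσ
    obtain ⟨hτ1, hτ2⟩ := h87_mem_fac.1 hτ
    refine mem_coe.2 (h87_mem_fac.2 ⟨?_, ?_⟩)
    · intro i r
      change Fin.append σ τ (e i) r ∈ G r
      refine Fin.addCases (motive := fun j => Fin.append σ τ j r ∈ G r) ?_ ?_ (e i)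
      · intro j
        rw [Fin.append_left]
        exact hKG r (hσ1 j r)
      · intro j
        rw [Fin.append_right]
        exact (mem_sdiff.1 (hτ1 j r)).1
    · have key : ∀ a b : Fin (m + m), a ≠ b → ∀ r, Fin.append σ τ a r ≠ Fin.append σ τ b r := by
        intro a b
        refine Fin.addCases (motive := fun a => a ≠ b →
          ∀ r, Fin.append σ τ a r ≠ Fin.append σ τ b r) ?_ ?_ a
        · intro i
          refine Fin.addCases (motive := fun b => Fin.castAdd m i ≠ b →
            ∀ r, Fin.append σ τ (Fin.castAdd m i) r ≠ Fin.append σ τ b r) ?_ ?_ b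
          · intro j hij r
            rw [Fin.append_left, Fin.append_left]
            exact hσ2 i j (fun h => hij (by rw [h])) r
          · intro j _ r h
            rw [Fin.append_left, Fin.append_right] at h
            exact (mem_sdiff.1 (hτ1 j r)).2 (h ▸ hσ1 i r)
        · intro i
          refine Fin.addCases (motive := fun b => Fin.natAdd m i ≠ b →
            ∀ r, Fin.append σ τ (Fin.natAdd m i) r ≠ Fin.append σ τ b r) ?_ ?_ b
          · intro j _ r h
            rw [Fin.append_left, Fin.append_right] at h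
            exact (mem_sdiff.1 (hτ1 i r)).2 (h ▸ hσ1 j r)
          · intro j hij r
            rw [Fin.append_right, Fin.append_right]
            exact hτ2 i j (fun h => hij (by rw [h])) r
      intro i j hij r
      exact key (e i) (e j) (hei.ne hij) r
  · rintro ⟨K, σ, τ⟩ hx ⟨K', σ', τ'⟩ hx' heq
    obtain ⟨hK, hx⟩ := mem_sigma.1 hx
    obtain ⟨hσ, hτ⟩ := mem_product.1 hx
    obtain ⟨hK', hx'⟩ := mem_sigma.1 hx'
    obtain ⟨hσ', hτ'⟩ := mem_product.1 hx'
    simp only at hK hσ hτ hK' hσ' hτ' heq
    have h1 : ∀ a, Fin.append σ τ a = Fin.append σ' τ' a := by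
      intro a
      obtain ⟨i, rfl⟩ := hes a
      exact congrFun heq i
    have h2 : σ = σ' := by
      funext i
      have := h1 (Fin.castAdd m i)
      rwa [Fin.append_left, Fin.append_left] at this
    have h3 : τ = τ' := by
      funext i
      have := h1 (Fin.natAdd m i)
      rwa [Fin.append_right, Fin.append_right] at this
    have h4 : K = K' := by
      funext r
      rw [h87_split_half hK hσ r, h87_split_half hK' hσ' r, h2]
    subst h2 h3 h4
    rfl

end Pool.Agent.Lead.TB
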